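import Pool.Agent.Y706.BI.Stm

set_option autoImplicit false

/-!
# Project BI: all quadratic maps are bicritical
-/

namespace Pool.Agent.Y686.BI

open Polynomial
open Pool.Agent.Y706.BI
open Pool.Agent.W277.UH (wd)

universe u

lemma quad_expand {M : Type*} [Field M] (f : M[X]) (hf : f.natDegree ≤ 2) :
    f = C (f.coeff 2) * X ^ 2 + C (f.coeff 1) * X + C (f.coeff 0) := by
  ext n
  rcases n with _ | _ | _ | n
  · simp
  · simp [coeff_X]
  · simp [coeff_X]
  · rw [coeff_eq_zero_of_natDegree_lt (by omega)]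
    simp [coeff_X, coeff_X_pow, coeff_C]

lemma quad_sq {M : Type*} [Field M] [CharZero M] (a b c : M) (h : b ^ 2 = 4 * a * c) :
    ∃ (A : M × M) (t : M), A ≠ 0 ∧
      (C a * X ^ 2 + C b * X + C c : M[X]) = C t * (C A.2 * X - C A.1) ^ 2 := by
  by_cases ha : a = 0
  · subst ha
    have hb : b = 0 := by
      have : b ^ 2 = 0 := by rw [h]; ring
      exact pow_eq_zero_iff (by norm_num) |>.1 this
    subst hb
    refine ⟨(1, 0), c, ?_, ?_⟩
    · intro h0
      exact one_ne_zero (congrArg Prod.fst h0)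
    · simp
  · refine ⟨(-b / (2 * a), 1), a, ?_, ?_⟩
    · intro h0
      exact one_ne_zero (congrArg Prod.snd h0)
    · apply Polynomial.funext
      intro x
      simp only [eval_add, eval_mul, eval_C, eval_pow, eval_X, eval_sub]
      field_simp
      linear_combination (-1 : M) * h

/-- a binary quadratic form with nonzero discriminant has two isotropic lines -/
lemma quad_iso {M : Type*} [Field M] [IsAlgClosed M] [CharZero M] (a b c : M)
    (h : b ^ 2 - 4 * a * c ≠ 0) : ∃ m n m' n' : M, m * n' - n * m' ≠ 0 ∧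
      a * m ^ 2 + b * (m * n) + c * n ^ 2 = 0 ∧
      a * m' ^ 2 + b * (m' * n') + c * n' ^ 2 = 0 := by
  by_cases ha : a = 0
  · subst ha
    have hb : b ≠ 0 := by
      rintro rfl
      apply h
      ring
    refine ⟨1, 0, -c, b, ?_, ?_, ?_⟩
    · simpa using hb
    · ring
    · ring
  · obtain ⟨s, hs⟩ := IsAlgClosed.exists_pow_nat_eq (b ^ 2 - 4 * a * c) (n := 2) (by norm_num)
    have hs0 : s ≠ 0 := by
      rintro rfl
      apply h
      rw [← hs]
      ring
    refine ⟨-b + s, 2 * a, -b - s, 2 * a, ?_, ?_, ?_⟩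
    · have e : (-b + s) * (2 * a) - 2 * a * (-b - s) = 4 * a * s := by ring
      rw [e]
      exact mul_ne_zero (mul_ne_zero (by norm_num) ha) hs0
    · linear_combination a * hs
    · linear_combination a * hs

lemma quad_res {M : Type*} [Field M] (p q : M[X]) (hco : IsCoprime p q)
    (hmax : max p.natDegree q.natDegree = 2) :
    (p.coeff 2 * q.coeff 0 - p.coeff 0 * q.coeff 2) ^ 2 -
      (p.coeff 2 * q.coeff 1 - p.coeff 1 * q.coeff 2) *
        (p.coeff 1 * q.coeff 0 - p.coeff 0 * q.coeff 1) ≠ 0 := by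
  intro h0
  have hp : p.natDegree ≤ 2 := hmax ▸ le_max_left _ _
  have hq : q.natDegree ≤ 2 := hmax ▸ le_max_right _ _
  have ep := quad_expand p hp
  have eq := quad_expand q hq
  have evp : ∀ x : M, p.eval x = p.coeff 2 * x ^ 2 + p.coeff 1 * x + p.coeff 0 := by
    intro x
    conv_lhs => rw [ep]
    simp
  have evq : ∀ x : M, q.eval x = q.coeff 2 * x ^ 2 + q.coeff 1 * x + q.coeff 0 := by
    intro x
    conv_lhs => rw [eq]
    simp
  set p2 := p.coeff 2 with hp2
  set p1 := p.coeff 1 with hp1
  set p0 := p.coeff 0 with hp0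
  set q2 := q.coeff 2 with hq2
  set q1 := q.coeff 1 with hq1
  set q0 := q.coeff 0 with hq0
  by_cases hx : p2 * q1 - p1 * q2 = 0
  · have hy : p2 * q0 - p0 * q2 = 0 := by
      rw [hx, zero_mul, sub_zero] at h0
      exact pow_eq_zero_iff (by norm_num) |>.1 h0
    have hpq : C p2 * q = C q2 * p := by
      rw [ep, eq]
      have e1 : C p2 * C q1 = C q2 * C p1 := by
        rw [← C_mul, ← C_mul]
        congr 1
        linear_combination hx
      have e2 : C p2 * C q0 = C q2 * C p0 := by
        rw [← C_mul, ← C_mul]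
        congr 1
        linear_combination hy
      linear_combination X * e1 + e2
    by_cases hp20 : p2 = 0
    · by_cases hq20 : q2 = 0
      · have h1 : p.natDegree ≤ 1 := by
          rw [natDegree_le_iff_coeff_eq_zero]
          intro N hN
          rcases Nat.lt_or_ge 2 N with h | h
          · exact coeff_eq_zero_of_natDegree_lt (by omega)
          · have : N = 2 := by omega
            subst this
            exact hp20
        have h2 : q.natDegree ≤ 1 := by
          rw [natDegree_le_iff_coeff_eq_zero]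
          intro N hN
          rcases Nat.lt_or_ge 2 N with h | h
          · exact coeff_eq_zero_of_natDegree_lt (by omega)
          · have : N = 2 := by omega
            subst this
            exact hq20
        have := max_le h1 h2
        omega
      · rw [hp20, C_0, zero_mul] at hpq
        have h3 : p = 0 := by
          rcases mul_eq_zero.1 hpq.symm with h | h
          · exact absurd (C_eq_zero.1 h) hq20
          · exact h
        rw [h3, isCoprime_zero_left] at hco
        have h4 := natDegree_eq_zero_of_isUnit hco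
        rw [h3, h4] at hmax
        simp at hmax
    · have hdvd : p ∣ q := by
        refine ⟨C (q2 / p2), ?_⟩
        have h3 : C p2⁻¹ * (C p2 * q) = C p2⁻¹ * (C q2 * p) := by rw [hpq]
        rw [← mul_assoc, ← C_mul, inv_mul_cancel₀ hp20, C_1, one_mul, ← mul_assoc, ← C_mul] at h3
        rw [h3, mul_comm, div_eq_mul_inv, mul_comm q2]
      have hu := hco.isUnit_of_dvd' dvd_rfl hdvd
      have h4 := natDegree_eq_zero_of_isUnit hu
      apply hp20
      rw [hp2]
      exact coeff_eq_zero_of_natDegree_lt (by omega)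
  · set x := p2 * q1 - p1 * q2 with hxdef
    set y := p2 * q0 - p0 * q2 with hydef
    set z := p1 * q0 - p0 * q1 with hzdef
    have e1 : p2 * q.eval (-y / x) = q2 * p.eval (-y / x) := by
      rw [evp, evq]
      field_simp
      rw [hxdef, hydef]
      ring
    have e2 : p1 * q.eval (-y / x) = q1 * p.eval (-y / x) := by
      rw [evp, evq]
      field_simp
      linear_combination (-x) * h0
    have e3 : p.eval (-y / x) = 0 := by
      have : x * p.eval (-y / x) = 0 := by
        rw [hxdef]
        linear_combination p1 * e1 - p2 * e2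
      exact (mul_eq_zero.1 this).resolve_left hx
    have e4 : q.eval (-y / x) = 0 := by
      have : x * q.eval (-y / x) = 0 := by
        rw [hxdef]
        linear_combination q1 * e1 - q2 * e2
      exact (mul_eq_zero.1 this).resolve_left hx
    obtain ⟨u, w, huw⟩ := hco
    have := congrArg (eval (-y / x)) huw
    rw [eval_add, eval_mul, eval_mul, e3, e4, mul_zero, mul_zero, add_zero, eval_one] at this
    exact zero_ne_one this

theorem t_QUAD : S_QUAD.{u} := by
  intro M _ _ _ p q hco hmax
  have hp : p.natDegree ≤ 2 := hmax ▸ le_max_left _ _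
  have hq : q.natDegree ≤ 2 := hmax ▸ le_max_right _ _
  have hres := quad_res p q hco hmax
  have ep := quad_expand p hp
  have eq := quad_expand q hq
  obtain ⟨m, n, m', n', hD, h1, h2⟩ := quad_iso (p.coeff 1 ^ 2 - 4 * p.coeff 2 * p.coeff 0)
    (2 * (p.coeff 1 * q.coeff 1) - 4 * (p.coeff 2 * q.coeff 0) - 4 * (p.coeff 0 * q.coeff 2))
    (q.coeff 1 ^ 2 - 4 * q.coeff 2 * q.coeff 0) (by
      intro h
      apply hres
      have : (16 : M) * ((p.coeff 2 * q.coeff 0 - p.coeff 0 * q.coeff 2) ^ 2 -
          (p.coeff 2 * q.coeff 1 - p.coeff 1 * q.coeff 2) *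
            (p.coeff 1 * q.coeff 0 - p.coeff 0 * q.coeff 1)) = 0 := by
        linear_combination h
      exact (mul_eq_zero.1 this).resolve_left (by norm_num))
  have hlin : ∀ s t : M, C s * p + C t * q =
      C (s * p.coeff 2 + t * q.coeff 2) * X ^ 2 + C (s * p.coeff 1 + t * q.coeff 1) * X +
        C (s * p.coeff 0 + t * q.coeff 0) := by
    intro s t
    conv_lhs => rw [ep, eq]
    simp only [C_add, C_mul]
    ring
  obtain ⟨A, c, hA, hcA⟩ := quad_sq (m * p.coeff 2 + n * q.coeff 2)
    (m * p.coeff 1 + n * q.coeff 1) (m * p.coeff 0 + n * q.coeff 0) (by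
      linear_combination h1)
  obtain ⟨B, c', hB, hcB⟩ := quad_sq (m' * p.coeff 2 + n' * q.coeff 2)
    (m' * p.coeff 1 + n' * q.coeff 1) (m' * p.coeff 0 + n' * q.coeff 0) (by
      linear_combination h2)
  rw [← hlin] at hcA hcB
  set D := m * n' - n * m' with hDdef
  have hDi : C D⁻¹ * C D = (1 : M[X]) := by
    rw [← C_mul, inv_mul_cancel₀ hD, C_1]
  have hP : p = C (D⁻¹ * n' * c) * (C A.2 * X - C A.1) ^ 2 +
      C (-(D⁻¹ * n * c')) * (C B.2 * X - C B.1) ^ 2 := by
    have e : C D * p = C n' * (C m * p + C n * q) - C n * (C m' * p + C n' * q) := by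
      rw [hDdef]
      simp only [C_sub, C_mul]
      ring
    calc p = C D⁻¹ * (C D * p) := by rw [← mul_assoc, hDi, one_mul]
      _ = _ := by
        rw [e, hcA, hcB]
        simp only [C_neg, C_mul]
        ring
  have hQ : q = C (-(D⁻¹ * m' * c)) * (C A.2 * X - C A.1) ^ 2 +
      C (D⁻¹ * m * c') * (C B.2 * X - C B.1) ^ 2 := by
    have e : C D * q = C m * (C m' * p + C n' * q) - C m' * (C m * p + C n * q) := by
      rw [hDdef]
      simp only [C_sub, C_mul]
      ring
    calc q = C D⁻¹ * (C D * q) := by rw [← mul_assoc, hDi, one_mul]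
      _ = _ := by
        rw [e, hcA, hcB]
        simp only [C_neg, C_mul]
        ring
  refine ⟨A, B, (D⁻¹ * n' * c, -(D⁻¹ * m' * c)), (-(D⁻¹ * n * c'), D⁻¹ * m * c'), ?_, hP, hQ⟩
  intro hw
  unfold wd at hw
  -- the second linear form is a multiple of the first one
  obtain ⟨r, hr1, hr2⟩ : ∃ r : M, B.1 = r * A.1 ∧ B.2 = r * A.2 := by
    by_cases hA2 : A.2 = 0
    · have hA1 : A.1 ≠ 0 := fun h => hA (Prod.ext h hA2)
      refine ⟨B.1 / A.1, by field_simp, ?_⟩
      rw [hA2, zero_mul, sub_zero] at hw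
      rw [(mul_eq_zero.1 hw).resolve_left hA1, hA2, mul_zero]
    · refine ⟨B.2 / A.2, ?_, by field_simp⟩
      field_simp
      linear_combination (-1 : M) * hw
  have hBA : (C B.2 * X - C B.1 : M[X]) = C r * (C A.2 * X - C A.1) := by
    rw [hr1, hr2]
    simp only [C_mul]
    ring
  have hdp : (C A.2 * X - C A.1 : M[X]) ∣ p := by
    rw [hP, hBA]
    exact dvd_add (Dvd.dvd.mul_left (dvd_pow_self _ two_ne_zero) _)
      (Dvd.dvd.mul_left (by rw [mul_pow]; exact Dvd.dvd.mul_left (dvd_pow_self _ two_ne_zero) _) _)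
  have hdq : (C A.2 * X - C A.1 : M[X]) ∣ q := by
    rw [hQ, hBA]
    exact dvd_add (Dvd.dvd.mul_left (dvd_pow_self _ two_ne_zero) _)
      (Dvd.dvd.mul_left (by rw [mul_pow]; exact Dvd.dvd.mul_left (dvd_pow_self _ two_ne_zero) _) _)
  have hu := hco.isUnit_of_dvd' hdp hdq
  have hA2 : A.2 = 0 := by
    have h5 := natDegree_eq_zero_of_isUnit hu
    by_contra hne
    have h6 : (C A.2 * X - C A.1 : M[X]).natDegree = 1 := by
      rw [sub_eq_add_neg, ← C_neg]
      exact natDegree_linear hne
    omega
  have hpc : p.natDegree = 0 := by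
    rw [hP, hBA, hA2]
    have : (C (D⁻¹ * n' * c) * (C 0 * X - C A.1) ^ 2 + C (-(D⁻¹ * n * c')) *
        (C r * (C 0 * X - C A.1)) ^ 2 : M[X]) =
        C (D⁻¹ * n' * c * A.1 ^ 2 - D⁻¹ * n * c' * (r * A.1) ^ 2) := by
      simp only [C_0, zero_mul, zero_sub, C_neg, C_sub, C_mul, C_pow]
      ring
    rw [this, natDegree_C]
  have hqc : q.natDegree = 0 := by
    rw [hQ, hBA, hA2]
    have : (C (-(D⁻¹ * m' * c)) * (C 0 * X - C A.1) ^ 2 + C (D⁻¹ * m * c') *
        (C r * (C 0 * X - C A.1)) ^ 2 : M[X]) =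
        C (-(D⁻¹ * m' * c * A.1 ^ 2) + D⁻¹ * m * c' * (r * A.1) ^ 2) := by
      simp only [C_0, zero_mul, zero_sub, C_neg, C_add, C_mul, C_pow]
      ring
    rw [this, natDegree_C]
  rw [hpc, hqc] at hmax
  simp at hmax

end Pool.Agent.Y686.BI
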